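import Pool.Agent.Lib.MP_0c183c_M.Final

/-!
# Graphs with a Pfaffian orientation are recognised in polynomial time
-/

namespace Pool.Agent.Results.MP_0c183c_co.PolynomialTime

open Pool.Agent.Lib.MP_0c183c_M Turing

open Classical in
/-- There is a deterministic Turing machine (with several stacks and finite alphabets) which
decides in polynomial time whether a given graph (which may have loops and parallel edges, and
need not be bipartite) has a Pfaffian orientation. -/
theorem result :
    ∃ M : TM2ComputableInPolyTime Graph.encode (fun b : Bool => [b])
        (fun G : Graph => decide G.IsPfaffian),
      ∀ k, Finite (M.tm.Γ k) :=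
  machine

end Pool.Agent.Results.MP_0c183c_co.PolynomialTime
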